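import Pool.Agent.Q261.ML.Theta

open MeasureTheory Set
open scoped ContDiff

namespace Q261.ML

variable {𝔸 : Type*} [NormedRing 𝔸] [NormedAlgebra ℝ 𝔸] [CompleteSpace 𝔸]
variable {E : Type*} [NormedAddCommGroup E] [NormedSpace ℝ E]

theorem closed_alg (τ : 𝔸 →L[ℝ] ℝ) (hτ : ∀ x y, τ (x * y) = τ (y * x))
    (a b c d R01 R02 R03 R12 R13 R23 : 𝔸) :
    ((τ ((R01 - a * b) * c * d) + τ (b * (R02 - a * c) * d) + τ (b * c * (R03 - a * d)))
      - (τ ((R01 - a * b) * d * c) + τ (b * (R03 - a * d) * c) + τ (b * d * (R02 - a * c))))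
    - ((τ ((R01 - b * a) * c * d) + τ (a * (R12 - b * c) * d) + τ (a * c * (R13 - b * d)))
      - (τ ((R01 - b * a) * d * c) + τ (a * (R13 - b * d) * c) + τ (a * d * (R12 - b * c))))
    + ((τ ((R02 - c * a) * b * d) + τ (a * (R12 - c * b) * d) + τ (a * b * (R23 - c * d)))
      - (τ ((R02 - c * a) * d * b) + τ (a * (R23 - c * d) * b) + τ (a * d * (R12 - c * b))))
    - ((τ ((R03 - d * a) * b * c) + τ (a * (R13 - d * b) * c) + τ (a * b * (R23 - d * c)))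
      - (τ ((R03 - d * a) * c * b) + τ (a * (R23 - d * c) * b) + τ (a * c * (R13 - d * b)))) = 0 := by
  have c3 : ∀ p q r : 𝔸, τ (p * q * r) = τ (q * r * p) := fun p q r => by
    rw [mul_assoc p q r, hτ p (q * r)]
  have c4 : ∀ p q r s : 𝔸, τ (p * q * r * s) = τ (q * r * s * p) := fun p q r s => by
    rw [mul_assoc (p * q) r s, mul_assoc p q, hτ p, ← mul_assoc, ]
  have c4' : ∀ p q r s : 𝔸, τ (p * q * r * s) = τ (r * s * p * q) := fun p q r s => by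
    rw [c4, c4]
  have c4'' : ∀ p q r s : 𝔸, τ (p * q * r * s) = τ (s * p * q * r) := fun p q r s => by
    rw [c4, c4, c4]
  have c3' : ∀ p q r : 𝔸, τ (p * q * r) = τ (r * p * q) := fun p q r => by
    rw [c3, c3]
  simp only [sub_mul, mul_sub, map_sub, ← mul_assoc]
  simp only [c4 b a c d, c4 b a d c, c4' b c a d, c4'' b c d a, c4' b d a c, c4'' b d c a, c4 c a b d, c4 c a d b, c4' c b a d, c4'' c b d a, c4' c d a b, c4'' c d b a, c4 d a b c, c4 d a c b, c4' d b a c, c4'' d b c a, c4' d c a b, c4'' d c b a, c3 c R01 d, c3' c d R01, c3 d R01 c, c3' d c R01, c3 b R02 d, c3' b d R02, c3 d R02 b, c3' d b R02, c3 b R03 c, c3' b c R03, c3 c R03 b, c3' c b R03, c3 a R12 d, c3' a d R12, c3 d R12 a, c3' d a R12, c3 a R13 c, c3' a c R13, c3 c R13 a, c3' c a R13, c3 a R23 b, c3' a b R23, c3 b R23 a, c3' b a R23]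
  ring

theorem closed_form (τ : 𝔸 →L[ℝ] ℝ) (hτ : ∀ x y, τ (x * y) = τ (y * x)) {F : E → 𝔸}
    (hF : ContDiff ℝ ∞ F) (hU : ∀ x, IsUnit (F x)) (e0 e1 e2 e3 x : E) :
    fderiv ℝ (TT τ F e1 e2 e3) x e0 - fderiv ℝ (TT τ F e0 e2 e3) x e1
      + fderiv ℝ (TT τ F e0 e1 e3) x e2 - fderiv ℝ (TT τ F e0 e1 e2) x e3 = 0 := by
  rw [fderiv_TT τ hF hU, fderiv_TT τ hF hU, fderiv_TT τ hF hU, fderiv_TT τ hF hU]
  simp only [fderiv_th hF hU]
  rw [RR_symm hF e1 e0, RR_symm hF e2 e0, RR_symm hF e3 e0, RR_symm hF e2 e1, RR_symm hF e3 e1,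
    RR_symm hF e3 e2]
  exact closed_alg τ hτ _ _ _ _ _ _ _ _ _ _

end Q261.ML
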