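import Pool.Agent.Q261.ML.Closed

open MeasureTheory Set
open scoped ContDiff

namespace Q261.ML

variable {𝔸 : Type*} [NormedRing 𝔸] [NormedAlgebra ℝ 𝔸] [CompleteSpace 𝔸]

noncomputable def UU (J : 𝔸) (φ : ℝ) : 𝔸 := Real.cos φ • (1 : 𝔸) + Real.sin φ • J

noncomputable def FF (A₁ A₂ A₃ J : 𝔸) (x : Fin 4 → ℝ) : 𝔸 :=
  ((1 - x 0) * (1 - x 1)) • (A₁ * UU J (x 2)) + ((1 - x 0) * x 1) • (A₂ * UU J (x 3)) + x 0 • A₃

theorem contDiff_UU (J : 𝔸) : ContDiff ℝ ∞ (UU J) := by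
  unfold UU
  exact (Real.contDiff_cos.smul contDiff_const).add (Real.contDiff_sin.smul contDiff_const)

theorem hasDerivAt_UU {J : 𝔸} (hJ : J * J = -1) (φ : ℝ) :
    HasDerivAt (UU J) (UU J φ * J) φ := by
  have h := ((Real.hasDerivAt_cos φ).smul_const (1 : 𝔸)).add
    ((Real.hasDerivAt_sin φ).smul_const J)
  have h2 : UU J φ * J = -Real.sin φ • (1 : 𝔸) + Real.cos φ • J := by
    unfold UU
    rw [add_mul, smul_mul_assoc, smul_mul_assoc, hJ, one_mul]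
    module
  rw [h2]; exact h

theorem UU_periodic (J : 𝔸) (φ : ℝ) : UU J (φ + 2 * Real.pi) = UU J φ := by
  unfold UU; rw [Real.cos_add_two_pi, Real.sin_add_two_pi]

theorem contDiff_FF (A₁ A₂ A₃ J : 𝔸) : ContDiff ℝ ∞ (FF A₁ A₂ A₃ J) := by
  have hx : ∀ i : Fin 4, ContDiff ℝ ∞ (fun x : Fin 4 → ℝ => x i) := fun i => contDiff_apply ℝ ℝ i
  have hc : ∀ r : ℝ, ContDiff ℝ ∞ (fun _ : Fin 4 → ℝ => r) := fun r => contDiff_const
  unfold FF
  exact (((((hc 1).sub (hx 0)).mul ((hc 1).sub (hx 1))).smul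
    (contDiff_const.mul ((contDiff_UU J).comp (hx 2)))).add
    ((((hc 1).sub (hx 0)).mul (hx 1)).smul
    (contDiff_const.mul ((contDiff_UU J).comp (hx 3))))).add ((hx 0).smul contDiff_const)

/-- The unit vectors. -/
noncomputable abbrev e4 (i : Fin 4) : Fin 4 → ℝ := Pi.single i 1

theorem fd_of_line {F : (Fin 4 → ℝ) → 𝔸} (hF : ContDiff ℝ ∞ F) (x v : Fin 4 → ℝ) {D : 𝔸}
    (h : HasDerivAt (fun t : ℝ => F (x + t • v)) D 0) : fderiv ℝ F x v = D := by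
  have h1 : DifferentiableAt ℝ F x := hF.differentiable (by simp) x
  rw [← h1.lineDeriv_eq_fderiv, lineDeriv]
  exact h.deriv

theorem pd1 (A₁ A₂ A₃ J : 𝔸) (x : Fin 4 → ℝ) :
    fderiv ℝ (FF A₁ A₂ A₃ J) x (e4 1) = (1 - x 0) • (A₂ * UU J (x 3) - A₁ * UU J (x 2)) := by
  apply fd_of_line (contDiff_FF A₁ A₂ A₃ J)
  have h : (fun t : ℝ => FF A₁ A₂ A₃ J (x + t • e4 1))
      = fun t : ℝ => FF A₁ A₂ A₃ J x + t • ((1 - x 0) • (A₂ * UU J (x 3) - A₁ * UU J (x 2))) := by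
    funext t
    simp only [FF, Pi.add_apply, Pi.smul_apply, smul_eq_mul]
    simp [e4]
    module
  rw [h]
  simpa using ((hasDerivAt_id (0 : ℝ)).smul_const
    ((1 - x 0) • (A₂ * UU J (x 3) - A₁ * UU J (x 2)))).const_add (FF A₁ A₂ A₃ J x)

theorem pd2 (A₁ A₂ A₃ : 𝔸) {J : 𝔸} (hJ : J * J = -1) (x : Fin 4 → ℝ) :
    fderiv ℝ (FF A₁ A₂ A₃ J) x (e4 2) = ((1 - x 0) * (1 - x 1)) • (A₁ * (UU J (x 2) * J)) := by
  apply fd_of_line (contDiff_FF A₁ A₂ A₃ J)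
  have h : (fun t : ℝ => FF A₁ A₂ A₃ J (x + t • e4 2))
      = fun t : ℝ => ((1 - x 0) * (1 - x 1)) • (A₁ * UU J (x 2 + t))
        + (((1 - x 0) * x 1) • (A₂ * UU J (x 3)) + x 0 • A₃) := by
    funext t
    simp only [FF, Pi.add_apply, Pi.smul_apply, smul_eq_mul]
    simp [e4, add_assoc]
  rw [h]
  have h1 : HasDerivAt (fun t : ℝ => UU J (x 2 + t)) (UU J (x 2) * J) 0 := by
    have := (hasDerivAt_UU hJ (x 2 + 0)).comp_const_add (x 2) 0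
    simpa using this
  exact ((h1.const_mul A₁).const_smul ((1 - x 0) * (1 - x 1))).add_const _

theorem pd3 (A₁ A₂ A₃ : 𝔸) {J : 𝔸} (hJ : J * J = -1) (x : Fin 4 → ℝ) :
    fderiv ℝ (FF A₁ A₂ A₃ J) x (e4 3) = ((1 - x 0) * x 1) • (A₂ * (UU J (x 3) * J)) := by
  apply fd_of_line (contDiff_FF A₁ A₂ A₃ J)
  have h : (fun t : ℝ => FF A₁ A₂ A₃ J (x + t • e4 3))
      = fun t : ℝ => ((1 - x 0) * x 1) • (A₂ * UU J (x 3 + t))
        + (((1 - x 0) * (1 - x 1)) • (A₁ * UU J (x 2)) + x 0 • A₃) := by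
    funext t
    simp only [FF, Pi.add_apply, Pi.smul_apply, smul_eq_mul]
    simp [e4]
    abel
  rw [h]
  have h1 : HasDerivAt (fun t : ℝ => UU J (x 3 + t)) (UU J (x 3) * J) 0 := by
    have := (hasDerivAt_UU hJ (x 3 + 0)).comp_const_add (x 3) 0
    simpa using this
  exact ((h1.const_mul A₂).const_smul ((1 - x 0) * x 1)).add_const _

theorem FF_per2 (A₁ A₂ A₃ J : 𝔸) (x : Fin 4 → ℝ) :
    FF A₁ A₂ A₃ J (x + (2 * Real.pi) • e4 2) = FF A₁ A₂ A₃ J x := by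
  simp only [FF, Pi.add_apply, Pi.smul_apply, smul_eq_mul]
  simp [e4, UU_periodic]

theorem FF_per3 (A₁ A₂ A₃ J : 𝔸) (x : Fin 4 → ℝ) :
    FF A₁ A₂ A₃ J (x + (2 * Real.pi) • e4 3) = FF A₁ A₂ A₃ J x := by
  simp only [FF, Pi.add_apply, Pi.smul_apply, smul_eq_mul]
  simp [e4, UU_periodic]

theorem th_per {E : Type*} [NormedAddCommGroup E] [NormedSpace ℝ E] {F : E → 𝔸} {p : E}
    (h : ∀ x, F (x + p) = F x) (v x : E) : th F v (x + p) = th F v x := by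
  unfold th
  rw [h, ← fderiv_comp_add_right]
  congr 3
  funext y; exact h y

theorem TT_per {E : Type*} [NormedAddCommGroup E] [NormedSpace ℝ E] (τ : 𝔸 →L[ℝ] ℝ) {F : E → 𝔸}
    {p : E} (h : ∀ x, F (x + p) = F x) (u v w x : E) : TT τ F u v w (x + p) = TT τ F u v w x := by
  unfold TT
  rw [th_per h, th_per h, th_per h]

end Q261.ML
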