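import Mathlib

open Set Filter Topology

namespace Q261.ML

/-- Simultaneous approximation (qualitative form of Dirichlet's theorem). -/
theorem simul {N : ℕ} (x : Fin N → ℝ) {ε : ℝ} (hε : 0 < ε) :
    ∃ t : ℕ, 1 ≤ t ∧ ∃ p : Fin N → ℤ, ∀ i, |t * x i - p i| < ε := by
  classical
  let u : ℕ → (Fin N → ℝ) := fun k i => Int.fract ((k : ℝ) * x i)
  have hu : ∀ k, u k ∈ Icc (0 : Fin N → ℝ) 1 := by
    intro k
    exact ⟨fun i => Int.fract_nonneg _, fun i => (Int.fract_lt_one _).le⟩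
  obtain ⟨a, -, φ, hφ, hlim⟩ := (isCompact_Icc (a := (0 : Fin N → ℝ)) (b := 1)).tendsto_subseq hu
  have hc := hlim.cauchySeq
  rw [Metric.cauchySeq_iff] at hc
  obtain ⟨M, hM⟩ := hc ε hε
  have h := hM (M + 1) (by omega) M le_rfl
  have hlt : φ M < φ (M + 1) := hφ (Nat.lt_succ_self M)
  refine ⟨φ (M + 1) - φ M, by omega, fun i => ⌊(φ (M + 1) : ℝ) * x i⌋ - ⌊(φ M : ℝ) * x i⌋, ?_⟩
  intro i
  have h1 := (dist_pi_lt_iff hε).1 h i
  rw [Real.dist_eq] at h1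
  have h2 : ((φ (M + 1) - φ M : ℕ) : ℝ) * x i
      - ((⌊(φ (M + 1) : ℝ) * x i⌋ - ⌊(φ M : ℝ) * x i⌋ : ℤ) : ℝ)
      = Int.fract ((φ (M + 1) : ℝ) * x i) - Int.fract ((φ M : ℝ) * x i) := by
    rw [Nat.cast_sub hlt.le]
    push_cast
    unfold Int.fract
    ring
  rw [h2]
  exact h1

/-- ... with a nonzero integer vector, after scaling. -/
theorem simul_ne {N : ℕ} (x : Fin N → ℝ) (hx : x ≠ 0) :
    ∃ M : ℝ, 0 < M ∧ ∀ ε : ℝ, 0 < ε → ∃ t : ℕ, 1 ≤ t ∧ ∃ p : Fin N → ℤ, p ≠ 0 ∧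
      ∀ i, |t * (M * x i) - p i| < ε := by
  obtain ⟨j, hj⟩ := Function.ne_iff.1 hx
  have hj' : 0 < |x j| := abs_pos.2 hj
  refine ⟨2 / |x j|, by positivity, fun ε hε => ?_⟩
  obtain ⟨t, ht, p, hp⟩ := simul (fun i => 2 / |x j| * x i) (lt_min hε one_pos)
  refine ⟨t, ht, p, ?_, fun i => (hp i).trans_le (min_le_left _ _)⟩
  intro h0
  have h1 := (hp j).trans_le (min_le_right _ _)
  rw [h0] at h1
  simp only [Pi.zero_apply, Int.cast_zero, sub_zero] at h1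
  rw [abs_mul, abs_mul, abs_of_nonneg (by positivity : (0 : ℝ) ≤ 2 / |x j|),
    div_mul_cancel₀ _ hj'.ne', Nat.abs_cast] at h1
  have : (1 : ℝ) ≤ t := by exact_mod_cast ht
  linarith

end Q261.ML
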