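import Pool.Agent.Q261.ML.Cone

open MeasureTheory Set
open scoped ContDiff

namespace Q261.ML

variable {𝔸 : Type*} [NormedRing 𝔸] [NormedAlgebra ℝ 𝔸] [CompleteSpace 𝔸]

noncomputable def bb4 : Fin 4 → ℝ := ![1, 1, 2 * Real.pi, 2 * Real.pi]

/-- The `t = 0` face. -/
noncomputable def io (y : Fin 3 → ℝ) : Fin 4 → ℝ := Fin.insertNth (α := fun _ => ℝ) 0 0 y

section
variable (τ : 𝔸 →L[ℝ] ℝ) (hτ : ∀ x y, τ (x * y) = τ (y * x)) (A₁ A₂ A₃ : 𝔸) {J : 𝔸}
  (hJ : J * J = -1) (hU : ∀ x, IsUnit (FF A₁ A₂ A₃ J x))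

include hτ hJ hU in
theorem integral_front :
    ∫ y in Icc ((0 : Fin 4 → ℝ) ∘ (0 : Fin 4).succAbove) (bb4 ∘ (0 : Fin 4).succAbove),
      TT τ (FF A₁ A₂ A₃ J) (e4 1) (e4 2) (e4 3) (io y) = 0 := by
  classical
  set F := FF A₁ A₂ A₃ J with hFdef
  have hF : ContDiff ℝ ∞ F := contDiff_FF A₁ A₂ A₃ J
  have hT := fun u v w => contDiff_TT τ hF hU u v w
  have hle : (0 : Fin 4 → ℝ) ≤ bb4 := by
    intro i
    fin_cases i <;> simp [bb4, Real.pi_pos.le]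
  let f : Fin 4 → (Fin 4 → ℝ) → ℝ := ![TT τ F (e4 1) (e4 2) (e4 3),
    fun x => - TT τ F (e4 0) (e4 2) (e4 3) x, TT τ F (e4 0) (e4 1) (e4 3),
    fun x => - TT τ F (e4 0) (e4 1) (e4 2) x]
  have hf : ∀ i, ContDiff ℝ ∞ (f i) := by
    intro i
    fin_cases i
    · exact hT _ _ _
    · exact (hT _ _ _).neg
    · exact hT _ _ _
    · exact (hT _ _ _).neg
  have hsum : ∀ x, ∑ i, fderiv ℝ (f i) x (Pi.single i 1) = 0 := by
    intro x
    rw [Fin.sum_univ_four]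
    have h1 : fderiv ℝ (f 1) x (Pi.single 1 1) = - fderiv ℝ (TT τ F (e4 0) (e4 2) (e4 3)) x (e4 1) := by
      change fderiv ℝ (fun x => - TT τ F (e4 0) (e4 2) (e4 3) x) x (Pi.single 1 1) = _
      rw [fderiv_fun_neg]; rfl
    have h3 : fderiv ℝ (f 3) x (Pi.single 3 1) = - fderiv ℝ (TT τ F (e4 0) (e4 1) (e4 2)) x (e4 3) := by
      change fderiv ℝ (fun x => - TT τ F (e4 0) (e4 1) (e4 2) x) x (Pi.single 3 1) = _
      rw [fderiv_fun_neg]; rfl
    have h0 : fderiv ℝ (f 0) x (Pi.single 0 1) = fderiv ℝ (TT τ F (e4 1) (e4 2) (e4 3)) x (e4 0) := rfl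
    have h2 : fderiv ℝ (f 2) x (Pi.single 2 1) = fderiv ℝ (TT τ F (e4 0) (e4 1) (e4 3)) x (e4 2) := rfl
    rw [h0, h1, h2, h3]
    have := closed_form τ hτ hF hU (e4 0) (e4 1) (e4 2) (e4 3) x
    linarith
  have key := integral_divergence_of_hasFDerivAt_off_countable' (0 : Fin 4 → ℝ) bb4 hle f
    (fun i x => fderiv ℝ (f i) x) ∅ Set.countable_empty
    (fun i => (hf i).continuous.continuousOn)
    (fun x _ i => ((hf i).differentiable (by simp) x).hasFDerivAt)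
    (by
      have : (fun x => ∑ i, fderiv ℝ (f i) x (Pi.single i 1)) = fun _ => (0 : ℝ) := funext hsum
      rw [this]; exact integrableOn_zero)
  simp only [hsum, integral_zero] at key
  rw [Fin.sum_univ_four] at key
  -- `t = 1` face
  have hth1 : ∀ x : Fin 4 → ℝ, x 0 = 1 → ∀ i : Fin 4, i ≠ 0 → th F (e4 i) x = 0 := by
    intro x hx i hi
    unfold th
    fin_cases i
    · exact absurd rfl hi
    · change Ring.inverse (F x) * fderiv ℝ F x (e4 1) = 0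
      rw [hFdef, pd1, hx]; simp
    · change Ring.inverse (F x) * fderiv ℝ F x (e4 2) = 0
      rw [hFdef, pd2 A₁ A₂ A₃ hJ, hx]; simp
    · change Ring.inverse (F x) * fderiv ℝ F x (e4 3) = 0
      rw [hFdef, pd3 A₁ A₂ A₃ hJ, hx]; simp
  have hA : ∀ y : Fin 3 → ℝ, f 0 ((0 : Fin 4).insertNth (α := fun _ => ℝ) (bb4 0) y) = 0 := by
    intro y
    change TT τ F (e4 1) (e4 2) (e4 3) _ = 0
    have hx : ((0 : Fin 4).insertNth (α := fun _ => ℝ) (bb4 0) y : Fin 4 → ℝ) 0 = 1 := by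
      simp [bb4]
    unfold TT
    rw [hth1 _ hx 1 (by decide)]; simp
  have hB1 : ∀ y : Fin 3 → ℝ, f 1 ((1 : Fin 4).insertNth (α := fun _ => ℝ) (bb4 1) y) = 0 := by
    intro y
    change - TT τ F (e4 0) (e4 2) (e4 3) _ = 0
    set x : Fin 4 → ℝ := (1 : Fin 4).insertNth (α := fun _ => ℝ) (bb4 1) y with hxd
    have hx : x 1 = 1 := by
      rw [hxd]; simp [bb4]
    have h2 : th F (e4 2) x = 0 := by
      unfold th
      rw [hFdef, pd2 A₁ A₂ A₃ hJ, hx]; simp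
    unfold TT
    rw [h2]; simp
  have hB0 : ∀ y : Fin 3 → ℝ, f 1 ((1 : Fin 4).insertNth (α := fun _ => ℝ) ((0 : Fin 4 → ℝ) 1) y) = 0 := by
    intro y
    change - TT τ F (e4 0) (e4 2) (e4 3) _ = 0
    set x : Fin 4 → ℝ := (1 : Fin 4).insertNth (α := fun _ => ℝ) ((0 : Fin 4 → ℝ) 1) y with hxd
    have hx : x 1 = 0 := by
      rw [hxd]; simp
    have h2 : th F (e4 3) x = 0 := by
      unfold th
      rw [hFdef, pd3 A₁ A₂ A₃ hJ, hx]; simp
    unfold TT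
    rw [h2]; simp
  have hC : ∀ y : Fin 3 → ℝ, f 2 ((2 : Fin 4).insertNth (α := fun _ => ℝ) (bb4 2) y)
      = f 2 ((2 : Fin 4).insertNth (α := fun _ => ℝ) ((0 : Fin 4 → ℝ) 2) y) := by
    intro y
    change TT τ F (e4 0) (e4 1) (e4 3) _ = TT τ F (e4 0) (e4 1) (e4 3) _
    have hx : ((2 : Fin 4).insertNth (α := fun _ => ℝ) (bb4 2) y : Fin 4 → ℝ)
        = (2 : Fin 4).insertNth (α := fun _ => ℝ) ((0 : Fin 4 → ℝ) 2) y + (2 * Real.pi) • e4 2 := by
      funext i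
      refine Fin.succAboveCases 2 ?_ ?_ i
      · simp [bb4, e4]
      · intro j
        have : (2 : Fin 4).succAbove j ≠ 2 := Fin.succAbove_ne 2 j
        simp [e4, this]
    rw [hx]
    exact TT_per τ (fun x => by rw [hFdef]; exact FF_per2 A₁ A₂ A₃ J x) _ _ _ _
  have hD : ∀ y : Fin 3 → ℝ, f 3 ((3 : Fin 4).insertNth (α := fun _ => ℝ) (bb4 3) y)
      = f 3 ((3 : Fin 4).insertNth (α := fun _ => ℝ) ((0 : Fin 4 → ℝ) 3) y) := by
    intro y
    change - TT τ F (e4 0) (e4 1) (e4 2) _ = - TT τ F (e4 0) (e4 1) (e4 2) _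
    have hx : ((3 : Fin 4).insertNth (α := fun _ => ℝ) (bb4 3) y : Fin 4 → ℝ)
        = (3 : Fin 4).insertNth (α := fun _ => ℝ) ((0 : Fin 4 → ℝ) 3) y + (2 * Real.pi) • e4 3 := by
      funext i
      refine Fin.succAboveCases 3 ?_ ?_ i
      · simp [bb4, e4]
      · intro j
        have : (3 : Fin 4).succAbove j ≠ 3 := Fin.succAbove_ne 3 j
        simp [e4, this]
    rw [hx, TT_per τ (fun x => by rw [hFdef]; exact FF_per3 A₁ A₂ A₃ J x) _ _ _ _]
  simp only [hA, hB1, hB0, hC, hD, integral_zero, sub_self, add_zero, zero_sub] at key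
  have h := neg_eq_zero.1 key.symm
  exact h

end

end Q261.ML
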