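import Pool.Agent.Q261.ML.Maps

open Module Set

namespace Q261.ML

abbrev Mn (n : ℕ) : Type := Matrix (Fin n) (Fin n) ℂ

/-- `X` kills a complex subspace of dimension at least `m`. -/
def Kills {n : ℕ} (m : ℕ) (X : Mn n) : Prop :=
  ∃ K : Submodule ℂ (Cn n), m ≤ finrank ℂ K ∧ ∀ v ∈ K, X.mulVec v = 0

/-- the linear form `v ↦ w ⬝ v`. -/
noncomputable def dotL {n : ℕ} (w : Cn n) : Cn n →ₗ[ℂ] ℂ where
  toFun v := w ⬝ᵥ v
  map_add' u v := dotProduct_add w u v
  map_smul' c v := by rw [dotProduct_smul]; rfl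

/-- the kernel of the first `r` coordinates and of `w`. -/
noncomputable def LL {n : ℕ} (r : ℕ) (w : Cn n) (hr : r ≤ n) : Cn n →ₗ[ℂ] ((Fin r → ℂ) × ℂ) :=
  LinearMap.prod (LinearMap.funLeft ℂ ℂ (Fin.castLE hr)) (dotL w)

theorem finrank_ker_LL {n : ℕ} (r : ℕ) (w : Cn n) (hr : r ≤ n) :
    n ≤ finrank ℂ (LinearMap.ker (LL r w hr)) + (r + 1) := by
  have h := LinearMap.finrank_range_add_finrank_ker (LL r w hr)
  have h1 : finrank ℂ (Cn n) = n := by simp
  have h2 : finrank ℂ (LinearMap.range (LL r w hr)) ≤ r + 1 := by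
    refine (Submodule.finrank_le _).trans ?_
    rw [Module.finrank_prod]; simp
  omega

theorem mem_ker_LL {n : ℕ} {r : ℕ} {w : Cn n} {hr : r ≤ n} {v : Cn n} :
    v ∈ LinearMap.ker (LL r w hr) ↔ (∀ b : Fin n, (b : ℕ) < r → v b = 0) ∧ w ⬝ᵥ v = 0 := by
  rw [LinearMap.mem_ker]
  constructor
  · intro h
    have h1 := congrArg Prod.fst h
    have h2 := congrArg Prod.snd h
    refine ⟨fun b hb => ?_, h2⟩
    have := congrFun h1 ⟨b, hb⟩
    exact this
  · rintro ⟨h1, h2⟩
    refine Prod.ext ?_ h2
    funext b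
    exact h1 _ b.2

/-- matrices supported on the first `r` columns, as an injective image. -/
noncomputable def colL (n r : ℕ) : (Fin n → Fin r → ℂ) →ₗ[ℝ] Mn n where
  toFun f := Matrix.of (fun a b => if h : (b : ℕ) < r then f a ⟨b, h⟩ else 0)
  map_add' f g := by
    ext a b
    by_cases h : (b : ℕ) < r <;> simp [h]
  map_smul' c f := by
    ext a b
    by_cases h : (b : ℕ) < r <;> simp [h]

theorem colL_apply {n r : ℕ} (f : Fin n → Fin r → ℂ) (a b : Fin n) :
    colL n r f a b = if h : (b : ℕ) < r then f a ⟨b, h⟩ else 0 := rfl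

theorem colL_inj {n r : ℕ} (hr : r ≤ n) : Function.Injective (colL n r) := by
  intro f g h
  funext a b
  have := congrFun (congrFun h a) (Fin.castLE hr b)
  simpa [colL_apply] using this

theorem colL_apply_of_le {n r : ℕ} (f : Fin n → Fin r → ℂ) (a b : Fin n) (h : r ≤ (b : ℕ)) :
    colL n r f a b = 0 := by
  simp [colL_apply, Nat.not_lt.2 h]

theorem kills_of {n : ℕ} {m r : ℕ} (hrn : r ≤ n) (hm : m + (r + 1) ≤ n) (u w : Cn n)
    (f : Fin n → Fin r → ℂ) (s : ℂ) :
    Kills m (s • Matrix.vecMulVec u w + colL n r f) := by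
  refine ⟨LinearMap.ker (LL r w hrn), by have := finrank_ker_LL r w hrn; omega, ?_⟩
  intro v hv
  obtain ⟨h1, h2⟩ := mem_ker_LL.1 hv
  rw [Matrix.add_mulVec, Matrix.smul_mulVec, Matrix.vecMulVec_mulVec, h2]
  have h3 : (colL n r f).mulVec v = 0 := by
    funext a
    rw [Matrix.mulVec, dotProduct]
    apply Finset.sum_eq_zero
    intro b _
    by_cases hb : (b : ℕ) < r
    · rw [h1 b hb, mul_zero]
    · rw [colL_apply_of_le f a b (not_lt.1 hb), zero_mul]
  rw [h3]; simp

theorem exists_kills {n m : ℕ} (hm : 1 ≤ m) (hmn : m < n) (h21 : ¬ (n = 2 ∧ m = 1))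
    (V : Submodule ℝ (Mn n)) (hV : finrank ℝ V = 2 * m * n) :
    ∃ X ∈ V, X ≠ 0 ∧ Kills m X := by
  classical
  have hn : 0 < n := by omega
  rcases Nat.lt_or_ge m 2 with hm2 | hm2
  · -- `m = 1`, `n ≥ 3`
    have hm1 : m = 1 := by omega
    subst hm1
    have hn3 : 3 ≤ n := by
      by_contra h
      exact h21 ⟨by omega, rfl⟩
    let A : Fin 3 → (V →ₗ[ℝ] Cn n) := fun j =>
      { toFun := fun X => fun a => (X : Mn n) a (Fin.castLE hn3 j)
        map_add' := fun X Y => rfl
        map_smul' := fun c X => rfl }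
    obtain ⟨c, hc, X, hX, hsum⟩ := pencil_left (U := V) hn (by rw [hV]) A
    refine ⟨X, X.2, fun h => hX (Subtype.ext h), ?_⟩
    let v : Cn n := ∑ j, Pi.single (Fin.castLE hn3 j) (c j)
    have hvj : ∀ j, v (Fin.castLE hn3 j) = c j := by
      intro j
      simp only [v, Finset.sum_apply]
      rw [Finset.sum_eq_single j]
      · simp
      · intro b _ hb
        apply Pi.single_eq_of_ne
        intro h; exact hb ((Fin.castLE_injective hn3) h).symm
      · simp
    have hv : v ≠ 0 := by
      intro h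
      apply hc
      funext j
      rw [← hvj j, h]; rfl
    refine ⟨ℂ ∙ v, by rw [finrank_span_singleton hv], ?_⟩
    intro w hw
    obtain ⟨s, rfl⟩ := Submodule.mem_span_singleton.1 hw
    rw [Matrix.mulVec_smul]
    have h1 : (X : Mn n).mulVec v = 0 := by
      rw [← hsum]
      simp only [v]
      rw [Matrix.mulVec_sum]
      apply Finset.sum_congr rfl
      intro j _
      rw [Matrix.mulVec_single]
      funext a
      change _ = c j * (X : Mn n) a (Fin.castLE hn3 j)
      simp [mul_comm]
    rw [h1, smul_zero]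
  · -- `m ≥ 2`
    obtain ⟨r, hr⟩ : ∃ r, n = m + (r + 1) := ⟨n - m - 1, by omega⟩
    have hrn : r ≤ n := by omega
    have hr3 : r + 3 ≤ n := by omega
    by_contra hcon
    push Not at hcon
    set E₀ : Submodule ℝ (Mn n) := LinearMap.range (colL n r) with hE₀
    have hE₀dim : finrank ℝ E₀ = n * (r * 2) := by
      rw [hE₀, LinearMap.finrank_range_of_inj (colL_inj hrn)]
      have h1 : finrank ℝ (Fin r → ℂ) = r * 2 := by
        rw [Module.finrank_pi_fintype]
        simp [Complex.finrank_real_complex]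
      rw [Module.finrank_pi_fintype]
      simp [h1]
    have hinf : V ⊓ E₀ = ⊥ := by
      rw [eq_bot_iff]
      rintro X ⟨hXV, f, hf⟩
      by_contra hX0
      refine hcon X hXV hX0 ?_
      have := kills_of hrn (le_of_eq hr.symm) 0 0 f (m := m) 0
      rw [zero_smul, zero_add, hf] at this
      exact this
    have hdimM : finrank ℝ (Mn n) = n * n * 2 := by
      rw [Module.finrank_matrix]
      simp [Complex.finrank_real_complex]
    have hsup : finrank ℝ (V ⊔ E₀ : Submodule ℝ (Mn n)) = 2 * m * n + n * (r * 2) := by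
      have h := Submodule.finrank_sup_add_finrank_inf_eq V E₀
      rw [hinf, hV, hE₀dim] at h
      simpa using h
    have hQ : finrank ℝ (Mn n ⧸ (V ⊔ E₀)) = 2 * n := by
      have h := Submodule.finrank_quotient_add_finrank (V ⊔ E₀)
      rw [hsup, hdimM] at h
      have h2 : n * n * 2 = 2 * n + (2 * m * n + n * (r * 2)) := by
        have : n * n * 2 = n * (m + (r + 1)) * 2 := by rw [← hr]
        rw [this]; ring
      omega
    let idx : Fin 3 → Fin n := fun j => ⟨r + j, by omega⟩
    have hidx : Function.Injective idx := by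
      intro i j h
      have := congrArg Fin.val h
      simp only [idx] at this
      exact Fin.ext (by omega)
    let A : Fin 3 → (Cn n →ₗ[ℝ] (Mn n ⧸ (V ⊔ E₀))) := fun j =>
      (V ⊔ E₀).mkQ ∘ₗ
        { toFun := fun u => Matrix.vecMulVec u (Pi.single (idx j) 1)
          map_add' := fun u v => by rw [Matrix.add_vecMulVec]
          map_smul' := fun c u => by rw [Matrix.smul_vecMulVec]; rfl }
    obtain ⟨c, hc, u, hu, hsum⟩ := pencil_right hn hQ A
    let w : Cn n := ∑ j, Pi.single (idx j) (c j)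
    have hwj : ∀ j, w (idx j) = c j := by
      intro j
      simp only [w, Finset.sum_apply]
      rw [Finset.sum_eq_single j]
      · simp
      · intro b _ hb
        apply Pi.single_eq_of_ne
        intro h; exact hb (hidx h).symm
      · simp
    have hmem : Matrix.vecMulVec u w ∈ V ⊔ E₀ := by
      rw [← Submodule.ker_mkQ (V ⊔ E₀), LinearMap.mem_ker, ← hsum]
      simp only [A, LinearMap.comp_apply]
      rw [← map_sum]
      congr 1
      funext a b
      rw [Matrix.sum_apply]
      simp only [Matrix.vecMulVec_apply, w, Finset.sum_apply, LinearMap.coe_mk, AddHom.coe_mk,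
        Pi.smul_apply, smul_eq_mul, Finset.mul_sum]
      apply Finset.sum_congr rfl
      intro j _
      by_cases hb : b = idx j
      · subst hb; simp [mul_comm]
      · simp [Pi.single_eq_of_ne hb]
    obtain ⟨X, hXV, Y, ⟨f, hf⟩, hXY⟩ := Submodule.mem_sup.1 hmem
    have hXe : X = (1 : ℂ) • Matrix.vecMulVec u w + colL n r (-f) := by
      rw [one_smul, map_neg, hf, ← hXY]; abel
    refine hcon X hXV ?_ (by rw [hXe]; exact kills_of hrn (le_of_eq hr.symm) u w (-f) 1)
    intro hX0
    obtain ⟨j, hj⟩ := Function.ne_iff.1 hc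
    obtain ⟨a, ha⟩ := Function.ne_iff.1 hu
    have h1 := congrFun (congrFun hXe a) (idx j)
    rw [hX0] at h1
    rw [Matrix.add_apply, one_smul, Matrix.vecMulVec_apply, colL_apply_of_le _ _ _ (by simp [idx]),
      hwj, add_zero] at h1
    rcases mul_eq_zero.1 h1.symm with h | h
    · exact ha h
    · exact hj h

end Q261.ML
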