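import Pool.Agent.Q261.ML.Sing
import Pool.Agent.Q261.ML.Dirichlet

open Module Set

namespace Q261.ML

/-- `λ_i(X)`, the `i`-th smallest singular value (`1 ≤ i ≤ n`); Mathlib lists the singular values
in decreasing order starting from index `0`. -/
noncomputable def sv {n : ℕ} (X : Matrix (Fin n) (Fin n) ℂ) (i : ℕ) : ℝ :=
  (Matrix.toEuclideanLin X).singularValues (n - i)

/-- `Δ_s(X) = ∏_{i=1}^s λ_i(X)²`. -/
noncomputable def Delta {n : ℕ} (s : ℕ) (X : Matrix (Fin n) (Fin n) ℂ) : ℝ :=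
  ∏ i ∈ Finset.Icc 1 s, sv X i ^ 2

/-- `Δ_s(𝓛) = inf {Δ_s(X) : X ∈ 𝓛 \ {0}}`. -/
noncomputable def DeltaL {n : ℕ} (s : ℕ) (L : Submodule ℤ (Matrix (Fin n) (Fin n) ℂ)) : ℝ :=
  sInf (Delta s '' {X | X ∈ L ∧ X ≠ 0})

theorem Delta_nonneg {n : ℕ} (s : ℕ) (X : Matrix (Fin n) (Fin n) ℂ) : 0 ≤ Delta s X :=
  Finset.prod_nonneg fun _ _ => sq_nonneg _

theorem Delta_le {n m : ℕ} (X : Matrix (Fin n) (Fin n) ℂ) {ε : ℝ} (hε : 0 ≤ ε)
    (K : Submodule ℂ (Cn n)) (hK : m ≤ finrank ℂ K)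
    (hX : ∀ v ∈ K, ‖WithLp.toLp 2 (X.mulVec v)‖ ≤ ε * ‖WithLp.toLp 2 v‖) :
    Delta m X ≤ (ε ^ 2) ^ m := by
  set K' : Submodule ℂ (EuclideanSpace ℂ (Fin n)) :=
    K.map ((WithLp.linearEquiv 2 ℂ (Fin n → ℂ)).symm : (Fin n → ℂ) →ₗ[ℂ] _) with hK'
  have hfr : finrank ℂ K' = finrank ℂ K := LinearEquiv.finrank_map_eq _ _
  have hT : ∀ v ∈ K', ‖Matrix.toEuclideanLin X v‖ ≤ ε * ‖v‖ := by
    rintro v ⟨w, hw, rfl⟩
    exact hX w hw
  have h := fun k (hk : n ≤ k + m) => singularValues_le (Matrix.toEuclideanLin X) K'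
    (by rw [hfr]; exact hK) hε hT (k := k) hk
  have h2 : Delta m X ≤ ∏ i ∈ Finset.Icc 1 m, ε ^ 2 := by
    apply Finset.prod_le_prod
    · intro i _; positivity
    · intro i hi
      rw [Finset.mem_Icc] at hi
      exact pow_le_pow_left₀ (LinearMap.singularValues_nonneg _ _) (h (n - i) (by omega)) 2
  simpa using h2

theorem DeltaL_eq_zero {n m k : ℕ} (hm : 1 ≤ m) (hmn : m ≤ n)
    (B : Fin k → Matrix (Fin n) (Fin n) ℂ) (hB : LinearIndependent ℝ B)
    {X₀ : Matrix (Fin n) (Fin n) ℂ} (hX₀ : X₀ ∈ Submodule.span ℝ (Set.range B)) (hne : X₀ ≠ 0)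
    (hkill : Kills m X₀) : DeltaL m (Submodule.span ℤ (Set.range B)) = 0 := by
  classical
  obtain ⟨K, hK, hkill⟩ := hkill
  obtain ⟨x, hx⟩ := (Submodule.mem_span_range_iff_exists_fun ℝ).1 hX₀
  have hx0 : x ≠ 0 := by
    rintro rfl
    apply hne; rw [← hx]; simp
  obtain ⟨M, hM, hsim⟩ := simul_ne x hx0
  -- operator norms
  let T : Fin k → (EuclideanSpace ℂ (Fin n) →L[ℂ] EuclideanSpace ℂ (Fin n)) := fun i =>
    LinearMap.toContinuousLinearMap (Matrix.toEuclideanLin (B i))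
  have hT : ∀ i (v : Cn n), ‖WithLp.toLp 2 ((B i).mulVec v)‖ ≤ ‖T i‖ * ‖WithLp.toLp 2 v‖ :=
    fun i v => (T i).le_opNorm (WithLp.toLp 2 v)
  set C : ℝ := ∑ i, ‖T i‖ with hC
  have hC0 : 0 ≤ C := Finset.sum_nonneg fun i _ => norm_nonneg _
  have hkey : ∀ ε : ℝ, 0 < ε → ∃ X ∈ {X | X ∈ Submodule.span ℤ (Set.range B) ∧ X ≠ 0},
      Delta m X ≤ ((ε * C) ^ 2) ^ m := by
    intro ε hε
    obtain ⟨t, ht, p, hp0, hp⟩ := hsim ε hε
    refine ⟨∑ i, p i • B i, ⟨?_, ?_⟩, ?_⟩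
    · exact Submodule.sum_mem _ fun i _ =>
        Submodule.smul_mem _ _ (Submodule.subset_span (Set.mem_range_self i))
    · intro h0
      apply hp0
      have h1 : ∑ i, (p i : ℝ) • B i = 0 := by
        rw [← h0]
        exact Finset.sum_congr rfl fun i _ => Int.cast_smul_eq_zsmul ℝ (p i) (B i)
      funext i
      have := Fintype.linearIndependent_iff.1 hB _ h1 i
      exact_mod_cast this
    · refine Delta_le _ (mul_nonneg hε.le hC0) K hK ?_
      intro v hv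
      have h1 : (∑ i, p i • B i : Matrix (Fin n) (Fin n) ℂ).mulVec v
          = ∑ i, ((p i : ℝ) - t * (M * x i)) • (B i).mulVec v := by
        have h2 : (∑ i, p i • B i : Matrix (Fin n) (Fin n) ℂ)
            = ∑ i, ((p i : ℝ) - t * (M * x i)) • B i + ((t : ℝ) * M) • X₀ := by
          rw [← hx, Finset.smul_sum, ← Finset.sum_add_distrib]
          apply Finset.sum_congr rfl
          intro i _
          rw [smul_smul, ← add_smul]
          have : (p i : ℝ) - t * (M * x i) + t * M * x i = (p i : ℝ) := by ring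
          rw [this, Int.cast_smul_eq_zsmul]
        rw [h2, Matrix.add_mulVec, Matrix.smul_mulVec, hkill v hv, smul_zero, add_zero,
          Matrix.sum_mulVec]
        apply Finset.sum_congr rfl
        intro i _
        rw [Matrix.smul_mulVec]
      rw [h1, WithLp.toLp_sum]
      refine (norm_sum_le _ _).trans ?_
      rw [hC, Finset.mul_sum, Finset.sum_mul]
      apply Finset.sum_le_sum
      intro i _
      rw [WithLp.toLp_smul, norm_smul, mul_assoc]
      apply mul_le_mul _ (hT i v) (norm_nonneg _) hε.le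
      rw [Real.norm_eq_abs, abs_sub_comm]
      exact (hp i).le
  -- conclude
  have hbdd : BddBelow (Delta m '' {X | X ∈ Submodule.span ℤ (Set.range B) ∧ X ≠ 0}) :=
    ⟨0, by rintro _ ⟨X, _, rfl⟩; exact Delta_nonneg m X⟩
  have hnonneg : 0 ≤ DeltaL m (Submodule.span ℤ (Set.range B)) := by
    apply Real.sInf_nonneg
    rintro _ ⟨X, _, rfl⟩; exact Delta_nonneg m X
  refine le_antisymm ?_ hnonneg
  have hle : ∀ ε : ℝ, 0 < ε → DeltaL m (Submodule.span ℤ (Set.range B)) ≤ ((ε * C) ^ 2) ^ m := by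
    intro ε hε
    obtain ⟨X, hX, hXle⟩ := hkey ε hε
    exact (csInf_le hbdd ⟨X, hX, rfl⟩).trans hXle
  have hlim : Filter.Tendsto (fun ε : ℝ => ((ε * C) ^ 2) ^ m) (nhdsWithin 0 (Ioi 0)) (nhds 0) := by
    have h1 : Continuous (fun ε : ℝ => ((ε * C) ^ 2) ^ m) := by fun_prop
    have h2 := h1.tendsto 0
    have h3 : ((0 * C) ^ 2) ^ m = (0 : ℝ) := by
      rw [zero_mul, zero_pow (by norm_num), zero_pow (by omega)]
    rw [h3] at h2
    exact h2.mono_left nhdsWithin_le_nhds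
  refine ge_of_tendsto hlim ?_
  filter_upwards [self_mem_nhdsWithin] with ε hε
  exact hle ε hε

/-- **Main theorem.** -/
theorem main (n m : ℕ) (hm : 1 ≤ m) (hmn : m ≤ n)
    (B : Fin (2 * m * n) → Matrix (Fin n) (Fin n) ℂ) (hB : LinearIndependent ℝ B)
    (h : DeltaL m (Submodule.span ℤ (Set.range B)) ≠ 0) : m = n ∨ (n = 2 ∧ m = 1) := by
  by_contra hcon
  push Not at hcon
  obtain ⟨h1, h2⟩ := hcon
  have hV : finrank ℝ (Submodule.span ℝ (Set.range B)) = 2 * m * n := by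
    rw [finrank_span_eq_card hB]; simp
  obtain ⟨X, hX, hX0, hkill⟩ := exists_kills hm (lt_of_le_of_ne hmn h1) (fun h => h2 h.1 h.2)
    (Submodule.span ℝ (Set.range B)) hV
  exact h (DeltaL_eq_zero hm hmn B hB hX hX0 hkill)

end Q261.ML
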