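import Pool.Agent.Q261.ML.Pencil

open Module Set

namespace Q261.ML

section
variable (n : ℕ)

/-- `ℂⁿ` with the sup norm. -/
abbrev Cn (n : ℕ) : Type := Fin n → ℂ

/-- Multiplication by a complex number as a real-linear operator. -/
noncomputable def mulC (c : ℂ) : Cn n →L[ℝ] Cn n :=
  LinearMap.toContinuousLinearMap ((LinearMap.lsmul ℂ (Cn n) c).restrictScalars ℝ)

variable {n}

theorem mulC_apply (c : ℂ) (u : Cn n) : mulC n c u = c • u := rfl

theorem mulA (x y : Cn n →L[ℝ] Cn n) (u : Cn n) : (x * y) u = x (y u) := rfl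

theorem mulC_I_sq : mulC n Complex.I * mulC n Complex.I = -1 := by
  ext u i
  rw [mulA, mulC_apply, mulC_apply]
  simp [← mul_assoc]

theorem UU_apply (φ : ℝ) (u : Cn n) :
    UU (mulC n Complex.I) φ u = Complex.exp (φ * Complex.I) • u := by
  unfold UU
  rw [Complex.exp_mul_I]
  ext i
  simp [mulC_apply, add_mul, mul_assoc]

noncomputable def trC (n : ℕ) : (Cn n →L[ℝ] Cn n) →L[ℝ] ℝ :=
  LinearMap.toContinuousLinearMap ((LinearMap.trace ℝ (Cn n)) ∘ₗ ContinuousLinearMap.coeLM ℝ)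

theorem trC_apply (x : Cn n →L[ℝ] Cn n) : trC n x = LinearMap.trace ℝ (Cn n) (x : Cn n →ₗ[ℝ] Cn n) := rfl

theorem trC_mul_comm (x y : Cn n →L[ℝ] Cn n) : trC n (x * y) = trC n (y * x) := by
  rw [trC_apply, trC_apply]
  exact LinearMap.trace_mul_comm ℝ (x : Cn n →ₗ[ℝ] Cn n) (y : Cn n →ₗ[ℝ] Cn n)

theorem finrank_Cn : finrank ℝ (Cn n) = 2 * n := by
  rw [Module.finrank_pi_fintype]
  simp [Complex.finrank_real_complex, mul_comm]

theorem trC_one (hn : 0 < n) : trC n 1 ≠ 0 := by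
  rw [trC_apply]
  have h := LinearMap.trace_one ℝ (Cn n)
  have h2 : ((1 : Cn n →L[ℝ] Cn n) : Cn n →ₗ[ℝ] Cn n) = 1 := rfl
  rw [h2, h, finrank_Cn]
  positivity

theorem isUnit_of_inj {x : Cn n →L[ℝ] Cn n} (h : ∀ u, x u = 0 → u = 0) : IsUnit x := by
  rw [ContinuousLinearMap.isUnit_iff_bijective]
  have h1 : Function.Injective (x : Cn n →ₗ[ℝ] Cn n) := by
    rw [injective_iff_map_eq_zero]; exact h
  exact ⟨h1, (LinearMap.injective_iff_surjective_of_finrank_eq_finrank rfl).1 h1⟩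

/-- the complex parameters of the cone. -/
noncomputable def cc (x : Fin 4 → ℝ) : Fin 3 → ℂ :=
  ![((1 - x 0) * (1 - x 1) : ℝ) * Complex.exp (x 2 * Complex.I),
    ((1 - x 0) * x 1 : ℝ) * Complex.exp (x 3 * Complex.I), (x 0 : ℂ)]

theorem cc_ne (x : Fin 4 → ℝ) : cc x ≠ 0 := by
  intro h
  have h0 := congrFun h 0
  have h1 := congrFun h 1
  have h2 := congrFun h 2
  simp only [cc, Matrix.cons_val_zero, Pi.zero_apply, mul_eq_zero, Complex.exp_ne_zero,
    or_false] at h0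
  simp only [cc, Matrix.cons_val_one, Matrix.cons_val_zero, Pi.zero_apply, mul_eq_zero,
    Complex.exp_ne_zero, or_false] at h1
  have h2' : x 0 = 0 := by simpa [cc] using h2
  have h0' : (1 - x 0) * (1 - x 1) = 0 := by exact_mod_cast h0
  have h1' : (1 - x 0) * x 1 = 0 := by exact_mod_cast h1
  rw [h2'] at h0' h1'
  linarith

theorem cc0_smul (x : Fin 4 → ℝ) (w : Cn n) :
    cc x 0 • w = ((1 - x 0) * (1 - x 1)) • Complex.exp (x 2 * Complex.I) • w := by
  simp only [cc, Matrix.cons_val_zero, mul_smul, Complex.coe_smul]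

theorem cc1_smul (x : Fin 4 → ℝ) (w : Cn n) :
    cc x 1 • w = ((1 - x 0) * x 1) • Complex.exp (x 3 * Complex.I) • w := by
  simp only [cc, Matrix.cons_val_one, Matrix.cons_val_zero, mul_smul, Complex.coe_smul]

theorem cc2_smul (x : Fin 4 → ℝ) (w : Cn n) : cc x 2 • w = x 0 • w := by
  have : cc x 2 = (x 0 : ℂ) := rfl
  rw [this, Complex.coe_smul]

/-- **Pencil theorem, right form.** -/
theorem pencil_right {W : Type*} [AddCommGroup W] [Module ℝ W]
    [FiniteDimensional ℝ W] (hn : 0 < n) (hdim : finrank ℝ W = 2 * n) (A : Fin 3 → (Cn n →ₗ[ℝ] W)) :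
    ∃ c : Fin 3 → ℂ, c ≠ 0 ∧ ∃ u : Cn n, u ≠ 0 ∧ ∑ j, A j (c j • u) = 0 := by
  by_contra hcon
  push Not at hcon
  have hinj0 : Function.Injective (A 0) := by
    rw [injective_iff_map_eq_zero]
    intro u hu
    by_contra hu0
    have h := hcon (Pi.single 0 1) (by
      intro h; have := congrFun h 0; simp at this) u hu0
    rw [Fin.sum_univ_three] at h
    simp [hu] at h
  let e : Cn n ≃ₗ[ℝ] W := LinearMap.linearEquivOfInjective (A 0) hinj0 (by rw [hdim, finrank_Cn])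
  let B : Fin 3 → (Cn n →L[ℝ] Cn n) := fun j =>
    LinearMap.toContinuousLinearMap ((e.symm : W →ₗ[ℝ] Cn n) ∘ₗ A j)
  have hB : ∀ j u, B j u = e.symm (A j u) := fun j u => rfl
  apply trC_one hn
  refine tau_one_eq_zero (trC n) trC_mul_comm (B 0) (B 1) (B 2) mulC_I_sq ?_
  intro x
  apply isUnit_of_inj
  intro u hu
  by_contra hu0
  apply hcon (cc x) (cc_ne x) u hu0
  have h : FF (B 0) (B 1) (B 2) (mulC n Complex.I) x u = e.symm (∑ j, A j (cc x j • u)) := by
    rw [Fin.sum_univ_three, map_add, map_add, ← hB, ← hB, ← hB]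
    simp only [FF, _root_.add_apply, _root_.smul_apply,
      mulA, UU_apply]
    have hs : ∀ (j : Fin 3) (r : ℝ) (w : Cn n), B j (r • w) = r • B j w := fun j r w =>
      (B j).map_smul r w
    rw [cc0_smul, cc1_smul, cc2_smul, hs, hs, hs]
  rw [h] at hu
  exact (e.symm.map_eq_zero_iff).1 hu

/-- **Pencil theorem, left form.** -/
theorem pencil_left {U : Type*} [AddCommGroup U] [Module ℝ U]
    [FiniteDimensional ℝ U] (hn : 0 < n) (hdim : finrank ℝ U = 2 * n) (A : Fin 3 → (U →ₗ[ℝ] Cn n)) :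
    ∃ c : Fin 3 → ℂ, c ≠ 0 ∧ ∃ u : U, u ≠ 0 ∧ ∑ j, c j • A j u = 0 := by
  by_contra hcon
  push Not at hcon
  have hinj0 : Function.Injective (A 0) := by
    rw [injective_iff_map_eq_zero]
    intro u hu
    by_contra hu0
    have h := hcon (Pi.single 0 1) (by
      intro h; have := congrFun h 0; simp at this) u hu0
    rw [Fin.sum_univ_three] at h
    simp [hu] at h
  let e : U ≃ₗ[ℝ] Cn n := LinearMap.linearEquivOfInjective (A 0) hinj0 (by rw [hdim, finrank_Cn])
  let B : Fin 3 → (Cn n →L[ℝ] Cn n) := fun j =>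
    LinearMap.toContinuousLinearMap (A j ∘ₗ (e.symm : Cn n →ₗ[ℝ] U))
  have hB : ∀ j u, B j u = A j (e.symm u) := fun j u => rfl
  apply trC_one hn
  let τ : (Cn n →L[ℝ] Cn n)ᵐᵒᵖ →L[ℝ] ℝ :=
    (trC n).comp ((MulOpposite.opContinuousLinearEquiv ℝ (M := Cn n →L[ℝ] Cn n)).symm.toContinuousLinearMap)
  have hτ : ∀ x, τ x = trC n x.unop := fun x => rfl
  have h1 : trC n 1 = τ 1 := rfl
  rw [h1]
  refine tau_one_eq_zero τ (fun x y => ?_) (MulOpposite.op (B 0)) (MulOpposite.op (B 1))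
    (MulOpposite.op (B 2)) (J := MulOpposite.op (mulC n Complex.I)) ?_ ?_
  · rw [hτ, hτ, MulOpposite.unop_mul, MulOpposite.unop_mul, trC_mul_comm]
  · rw [← MulOpposite.op_mul, mulC_I_sq]; rfl
  intro x
  have hUU : ∀ φ, UU (MulOpposite.op (mulC n Complex.I)) φ = MulOpposite.op (UU (mulC n Complex.I) φ) := by
    intro φ; unfold UU; rfl
  have hFF : FF (MulOpposite.op (B 0)) (MulOpposite.op (B 1)) (MulOpposite.op (B 2))
      (MulOpposite.op (mulC n Complex.I)) x
      = MulOpposite.op (((1 - x 0) * (1 - x 1)) • (UU (mulC n Complex.I) (x 2) * B 0)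
        + ((1 - x 0) * x 1) • (UU (mulC n Complex.I) (x 3) * B 1) + x 0 • B 2) := by
    unfold FF
    rw [hUU, hUU]; rfl
  rw [hFF]
  apply IsUnit.op
  apply isUnit_of_inj
  intro u hu
  by_contra hu0
  have hu0' : e.symm u ≠ 0 := fun h => hu0 ((e.symm.map_eq_zero_iff).1 h)
  apply hcon (cc x) (cc_ne x) (e.symm u) hu0'
  rw [Fin.sum_univ_three, ← hB, ← hB, ← hB, ← hu]
  simp only [_root_.add_apply, _root_.smul_apply,
      mulA, UU_apply]
  rw [cc0_smul, cc1_smul, cc2_smul]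

end

end Q261.ML
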