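import Pool.Agent.Q261.ML.Div

open MeasureTheory Set
open scoped ContDiff

namespace Q261.ML

variable {𝔸 : Type*} [NormedRing 𝔸] [NormedAlgebra ℝ 𝔸] [CompleteSpace 𝔸]

noncomputable def ioL : (Fin 3 → ℝ) →L[ℝ] (Fin 4 → ℝ) :=
  ContinuousLinearMap.pi (Fin.cases 0 (fun j => ContinuousLinearMap.proj j))

theorem io_eq (y : Fin 3 → ℝ) : io y = ioL y := by
  funext i
  unfold io ioL
  refine Fin.cases ?_ ?_ i
  · simp
  · intro j; simp

theorem ioL_single (j : Fin 3) : ioL (Pi.single j 1) = e4 j.succ := by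
  funext i
  unfold ioL
  refine Fin.cases ?_ ?_ i
  · simp [e4]
  · intro k
    simp [e4, Pi.single_apply]

theorem io_fun : io = ioL := funext io_eq

theorem contDiff_io : ContDiff ℝ ∞ io := by
  rw [io_fun]; exact ioL.contDiff

section
variable (τ : 𝔸 →L[ℝ] ℝ) (hτ : ∀ x y, τ (x * y) = τ (y * x)) (A₁ A₂ A₃ : 𝔸) {J : 𝔸}
  (hJ : J * J = -1) (hU : ∀ x, IsUnit (FF A₁ A₂ A₃ J x))

include hU in
theorem fderiv_g (w : Fin 4 → ℝ) (y : Fin 3 → ℝ) (j : Fin 3) :
    fderiv ℝ (fun y => τ (J * th (FF A₁ A₂ A₃ J) w (io y))) y (Pi.single j 1)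
      = τ (J * (RR (FF A₁ A₂ A₃ J) (e4 j.succ) w (io y)
        - th (FF A₁ A₂ A₃ J) (e4 j.succ) (io y) * th (FF A₁ A₂ A₃ J) w (io y))) := by
  set F := FF A₁ A₂ A₃ J with hFdef
  have hF : ContDiff ℝ ∞ F := contDiff_FF A₁ A₂ A₃ J
  have h1 : HasFDerivAt (th F w) (fderiv ℝ (th F w) (io y)) (io y) :=
    ((contDiff_th hF hU w).differentiable (by simp) (io y)).hasFDerivAt
  have h2 : HasFDerivAt io ioL y := by rw [io_fun]; exact ioL.hasFDerivAt
  have h3 := (h1.comp y h2).const_mul J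
  have h4 := (τ.hasFDerivAt.comp y h3).fderiv
  have h5 : (fun y => τ (J * th F w (io y))) = τ ∘ (fun y => J * (th F w ∘ io) y) := rfl
  rw [h5, h4]
  simp only [ContinuousLinearMap.coe_comp, Function.comp]
  congr 1
  rw [ContinuousLinearMap.smul_apply, smul_eq_mul, ContinuousLinearMap.comp_apply, ioL_single,
    fderiv_th hF hU]

include hτ hJ hU in
theorem tau_one_eq_zero : τ 1 = 0 := by
  classical
  have hint := integral_front τ hτ A₁ A₂ A₃ hJ hU
  set F := FF A₁ A₂ A₃ J with hFdef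
  have hF : ContDiff ℝ ∞ F := contDiff_FF A₁ A₂ A₃ J
  have hth := fun w => contDiff_th hF hU w
  set b : Fin 3 → ℝ := bb4 ∘ (0 : Fin 4).succAbove with hb
  have ha : ((0 : Fin 4 → ℝ) ∘ (0 : Fin 4).succAbove : Fin 3 → ℝ) = 0 := by funext i; rfl
  rw [ha] at hint
  have hb0 : b 0 = 1 := by simp [hb, bb4]
  have hb1 : b 1 = 2 * Real.pi := by
    have : (0 : Fin 4).succAbove 1 = 2 := by decide
    simp [hb, bb4, this]
  have hb2 : b 2 = 2 * Real.pi := by
    have : (0 : Fin 4).succAbove 2 = 3 := by decide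
    simp [hb, bb4, this]
  have hle : (0 : Fin 3 → ℝ) ≤ b := by
    intro i
    fin_cases i
    · change (0 : ℝ) ≤ b 0; rw [hb0]; norm_num
    · change (0 : ℝ) ≤ b 1; rw [hb1]; positivity
    · change (0 : ℝ) ≤ b 2; rw [hb2]; positivity
  let g : Fin 3 → (Fin 3 → ℝ) → ℝ := ![fun y => - τ (J * th F (e4 2) (io y)),
    fun y => τ (J * th F (e4 1) (io y)), fun _ => 0]
  have hg0 : ∀ w, ContDiff ℝ ∞ (fun y => τ (J * th F w (io y))) := fun w =>
    τ.contDiff.comp (contDiff_const.mul ((hth w).comp contDiff_io))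
  have hg : ∀ i, ContDiff ℝ ∞ (g i) := by
    intro i
    fin_cases i
    · exact (hg0 _).neg
    · exact hg0 _
    · exact contDiff_const
  -- at `t = 0`
  have hJsum : ∀ y : Fin 3 → ℝ, th F (e4 3) (io y) = J - th F (e4 2) (io y) := by
    intro y
    have hx0 : io y 0 = 0 := by simp [io]
    rw [eq_sub_iff_add_eq]
    unfold th
    rw [← mul_add]
    have h : fderiv ℝ F (io y) (e4 3) + fderiv ℝ F (io y) (e4 2) = F (io y) * J := by
      rw [hFdef, pd2 A₁ A₂ A₃ hJ, pd3 A₁ A₂ A₃ hJ, hx0]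
      simp only [FF, hx0]
      simp [add_mul, mul_assoc]
      rw [add_comm]
    rw [h, ← mul_assoc, Ring.inverse_mul_cancel _ (hU _), one_mul]
  have hsum : ∀ y, ∑ i, fderiv ℝ (g i) y (Pi.single i 1) = TT τ F (e4 1) (e4 2) (e4 3) (io y) := by
    intro y
    rw [Fin.sum_univ_three]
    have h0 : fderiv ℝ (g 0) y (Pi.single 0 1)
        = - τ (J * (RR F (e4 1) (e4 2) (io y) - th F (e4 1) (io y) * th F (e4 2) (io y))) := by
      change fderiv ℝ (fun y => - τ (J * th F (e4 2) (io y))) y (Pi.single 0 1) = _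
      rw [fderiv_fun_neg]
      have := fderiv_g τ A₁ A₂ A₃ hU (e4 2) y 0
      rw [ContinuousLinearMap.neg_apply, this]
      rfl
    have h1 : fderiv ℝ (g 1) y (Pi.single 1 1)
        = τ (J * (RR F (e4 2) (e4 1) (io y) - th F (e4 2) (io y) * th F (e4 1) (io y))) := by
      change fderiv ℝ (fun y => τ (J * th F (e4 1) (io y))) y (Pi.single 1 1) = _
      exact fderiv_g τ A₁ A₂ A₃ hU (e4 1) y 1
    have h2 : fderiv ℝ (g 2) y (Pi.single 2 1) = 0 := by
      change fderiv ℝ (fun _ => (0 : ℝ)) y (Pi.single 2 1) = _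
      simp
    rw [h0, h1, h2, RR_symm hF (e4 2) (e4 1)]
    unfold TT
    rw [hJsum]
    set p := th F (e4 1) (io y)
    set q := th F (e4 2) (io y)
    simp only [mul_sub, sub_mul, map_sub, ← mul_assoc]
    have c1 : τ (p * q * J) = τ (J * p * q) := by rw [hτ (p * q) J, mul_assoc]
    have c2 : τ (p * J * q) = τ (J * q * p) := by rw [mul_assoc, hτ p (J * q)]
    rw [c1, c2]; ring
  have key := integral_divergence_of_hasFDerivAt_off_countable' (0 : Fin 3 → ℝ) b hle g
    (fun i x => fderiv ℝ (g i) x) ∅ Set.countable_empty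
    (fun i => (hg i).continuous.continuousOn)
    (fun x _ i => ((hg i).differentiable (by simp) x).hasFDerivAt)
    (by
      have : (fun x => ∑ i, fderiv ℝ (g i) x (Pi.single i 1))
          = fun y => TT τ F (e4 1) (e4 2) (e4 3) (io y) := funext hsum
      rw [this]
      exact (((contDiff_TT τ hF hU _ _ _).comp contDiff_io).continuous.continuousOn).integrableOn_compact
        isCompact_Icc)
  simp only [hsum] at key
  rw [hint, Fin.sum_univ_three] at key
  have hA1 : ∀ z : Fin 2 → ℝ, g 0 ((0 : Fin 3).insertNth (α := fun _ => ℝ) (b 0) z) = 0 := by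
    intro z
    change - τ (J * th F (e4 2) (io _)) = 0
    set y : Fin 3 → ℝ := (0 : Fin 3).insertNth (α := fun _ => ℝ) (b 0) z with hy
    have hx : io y 1 = 1 := by
      have : io y 1 = y 0 := by
        rw [io_eq]; rfl
      rw [this, hy]; simp [hb0]
    have h2 : th F (e4 2) (io y) = 0 := by
      unfold th
      rw [hFdef, pd2 A₁ A₂ A₃ hJ, hx]; simp
    rw [h2]; simp
  have hA0 : ∀ z : Fin 2 → ℝ,
      g 0 ((0 : Fin 3).insertNth (α := fun _ => ℝ) ((0 : Fin 3 → ℝ) 0) z) = τ 1 := by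
    intro z
    change - τ (J * th F (e4 2) (io _)) = _
    set y : Fin 3 → ℝ := (0 : Fin 3).insertNth (α := fun _ => ℝ) ((0 : Fin 3 → ℝ) 0) z with hy
    have hx : io y 1 = 0 := by
      have : io y 1 = y 0 := by
        rw [io_eq]; rfl
      rw [this, hy]; simp
    have hx0 : io y 0 = 0 := by simp [io]
    have h2 : th F (e4 2) (io y) = J := by
      unfold th
      have h3 : fderiv ℝ F (io y) (e4 2) = F (io y) * J := by
        rw [hFdef, pd2 A₁ A₂ A₃ hJ, hx, hx0]
        simp only [FF, hx, hx0]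
        simp [mul_assoc]
      rw [h3, ← mul_assoc, Ring.inverse_mul_cancel _ (hU _), one_mul]
    rw [h2, hJ]; simp
  have hB : ∀ z : Fin 2 → ℝ, g 1 ((1 : Fin 3).insertNth (α := fun _ => ℝ) (b 1) z)
      = g 1 ((1 : Fin 3).insertNth (α := fun _ => ℝ) ((0 : Fin 3 → ℝ) 1) z) := by
    intro z
    change τ (J * th F (e4 1) (io _)) = τ (J * th F (e4 1) (io _))
    have hx : io ((1 : Fin 3).insertNth (α := fun _ => ℝ) (b 1) z)
        = io ((1 : Fin 3).insertNth (α := fun _ => ℝ) ((0 : Fin 3 → ℝ) 1) z)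
          + (2 * Real.pi) • e4 2 := by
      have h1 : ((1 : Fin 3).insertNth (α := fun _ => ℝ) (b 1) z : Fin 3 → ℝ)
          = (1 : Fin 3).insertNth (α := fun _ => ℝ) ((0 : Fin 3 → ℝ) 1) z
            + (2 * Real.pi) • Pi.single 1 1 := by
        funext i
        refine Fin.succAboveCases 1 ?_ ?_ i
        · simp [hb1]
        · intro j
          have : (1 : Fin 3).succAbove j ≠ 1 := Fin.succAbove_ne 1 j
          simp [this]
      rw [h1, io_fun, map_add, map_smul, ioL_single]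
      rfl
    rw [hx, th_per (fun x => by rw [hFdef]; exact FF_per2 A₁ A₂ A₃ J x)]
  have hC : ∀ y, g 2 y = 0 := fun y => rfl
  simp only [hA1, hA0, hB, hC, integral_zero, sub_self, add_zero, zero_sub] at key
  rw [setIntegral_const] at key
  have hvol : volume.real (Icc ((0 : Fin 3 → ℝ) ∘ (0 : Fin 3).succAbove) (b ∘ (0 : Fin 3).succAbove))
      = (2 * Real.pi) * (2 * Real.pi) := by
    rw [Measure.real, Real.volume_Icc_pi_toReal]
    · rw [Fin.prod_univ_two]
      have h1 : (0 : Fin 3).succAbove 0 = 1 := by decide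
      have h2 : (0 : Fin 3).succAbove 1 = 2 := by decide
      simp [h1, h2, hb1, hb2]
    · intro i
      exact hle _
  rw [hvol] at key
  have hpi := Real.pi_pos
  have h := neg_eq_zero.1 key.symm
  rcases smul_eq_zero.1 h with h | h
  · exact absurd h (by positivity)
  · exact h

end

end Q261.ML
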