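import Pool.Agent.Q261.ML.LinAlg

open Module Set

namespace Q261.ML

/-- Easy half of Courant-Fischer for singular values. -/
theorem singularValues_le {n : ℕ} (T : EuclideanSpace ℂ (Fin n) →ₗ[ℂ] EuclideanSpace ℂ (Fin n))
    {m : ℕ} (K : Submodule ℂ (EuclideanSpace ℂ (Fin n))) (hK : m ≤ finrank ℂ K) {ε : ℝ} (hε : 0 ≤ ε)
    (hT : ∀ v ∈ K, ‖T v‖ ≤ ε * ‖v‖) {k : ℕ} (hk : n ≤ k + m) : T.singularValues k ≤ ε := by
  classical
  have hn : finrank ℂ (EuclideanSpace ℂ (Fin n)) = n := by simp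
  rcases Nat.lt_or_ge k n with hkn | hkn
  swap
  · rw [T.singularValues_of_finrank_le (by rw [hn]; exact hkn)]; exact hε
  set hS := T.isSymmetric_adjoint_comp_self with hSdef
  set b := hS.eigenvectorBasis hn with hb
  -- the coordinates after `k`
  let g : EuclideanSpace ℂ (Fin n) →ₗ[ℂ] ({i : Fin n // k < (i : ℕ)} → ℂ) :=
    { toFun := fun v i => b.repr v i
      map_add' := fun u v => by funext i; simp
      map_smul' := fun c v => by funext i; simp }
  have hcard : finrank ℂ ({i : Fin n // k < (i : ℕ)} → ℂ) < finrank ℂ K := by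
    rw [Module.finrank_fintype_fun_eq_card]
    have h1 : Fintype.card {i : Fin n // k < (i : ℕ)} = n - 1 - k := by
      rw [Fintype.card_subtype]
      have h2 : (Finset.univ.filter fun i : Fin n => k < (i : ℕ)) = Finset.Ioi (⟨k, hkn⟩ : Fin n) := by
        ext i; simp [Fin.lt_def]
      rw [h2, Fin.card_Ioi]
    omega
  have hker := LinearMap.ker_ne_bot_of_finrank_lt (f := g ∘ₗ K.subtype) hcard
  obtain ⟨v, hv, hv0⟩ := (Submodule.ne_bot_iff _).1 hker
  have hv1 : ∀ i : Fin n, k < (i : ℕ) → b.repr v.1 i = 0 := by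
    intro i hi
    have := congrFun (LinearMap.mem_ker.1 hv) ⟨i, hi⟩
    exact this
  set w : EuclideanSpace ℂ (Fin n) := v.1 with hw
  have hw0 : w ≠ 0 := fun h => hv0 (Subtype.ext h)
  have hwn : 0 < ‖w‖ := norm_pos_iff.2 hw0
  have hTw := hT w v.2
  -- ‖T w‖² ≥ σ_k² ‖w‖²
  have h1 : ‖T w‖ ^ 2 = ∑ i, hS.eigenvalues hn i * ‖b.repr w i‖ ^ 2 := by
    have h2 : ((‖T w‖ ^ 2 : ℝ) : ℂ) = inner ℂ ((LinearMap.adjoint T ∘ₗ T) w) w := by
      rw [LinearMap.comp_apply, LinearMap.adjoint_inner_left, inner_self_eq_norm_sq_to_K]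
      norm_cast
    have h3 : inner ℂ ((LinearMap.adjoint T ∘ₗ T) w) w
        = ∑ i, ((hS.eigenvalues hn i * ‖b.repr w i‖ ^ 2 : ℝ) : ℂ) := by
      rw [← b.repr.inner_map_map, PiLp.inner_apply]
      apply Finset.sum_congr rfl
      intro i _
      rw [hS.eigenvectorBasis_apply_self_apply hn w i, ← hb]
      rw [RCLike.inner_apply, map_mul]
      have hz : (starRingEnd ℂ) (b.repr w i) * b.repr w i = ((‖b.repr w i‖ ^ 2 : ℝ) : ℂ) := by
        rw [Complex.conj_mul']; push_cast; rfl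
      have hμ : (starRingEnd ℂ) ((hS.eigenvalues hn i : ℝ) : ℂ) = ((hS.eigenvalues hn i : ℝ) : ℂ) :=
        Complex.conj_ofReal _
      rw [Complex.ofReal_mul, ← hz]
      erw [hμ]
      ring
    rw [h3] at h2
    exact_mod_cast h2
  have h2 : ‖w‖ ^ 2 = ∑ i, ‖b.repr w i‖ ^ 2 := by
    rw [← b.repr.norm_map w, EuclideanSpace.norm_sq_eq]
  have h3 : hS.eigenvalues hn ⟨k, hkn⟩ * ‖w‖ ^ 2 ≤ ‖T w‖ ^ 2 := by
    rw [h1, h2, Finset.mul_sum]
    apply Finset.sum_le_sum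
    intro i _
    rcases Nat.lt_or_ge k i with hi | hi
    · rw [hv1 i hi]; simp
    · exact mul_le_mul_of_nonneg_right (hS.eigenvalues_antitone hn (by exact hi)) (by positivity)
  have h4 : T.singularValues k ^ 2 = hS.eigenvalues hn ⟨k, hkn⟩ := T.sq_singularValues_of_lt hn hkn
  rw [← h4] at h3
  have h5 : (T.singularValues k * ‖w‖) ^ 2 ≤ (ε * ‖w‖) ^ 2 := by
    rw [mul_pow]
    exact h3.trans (pow_le_pow_left₀ (norm_nonneg _) hTw 2)
  have h6 : T.singularValues k * ‖w‖ ≤ ε * ‖w‖ :=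
    le_of_sq_le_sq h5 (by positivity)
  exact le_of_mul_le_mul_right h6 hwn

end Q261.ML
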