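import Mathlib

open MeasureTheory Set
open scoped ContDiff

namespace Q261.ML

variable {𝔸 : Type*} [NormedRing 𝔸] [NormedAlgebra ℝ 𝔸] [CompleteSpace 𝔸]
variable {E : Type*} [NormedAddCommGroup E] [NormedSpace ℝ E]

/-- The Maurer-Cartan form `θ_v = F⁻¹ ∂_v F`. -/
noncomputable def th (F : E → 𝔸) (v : E) (x : E) : 𝔸 := Ring.inverse (F x) * fderiv ℝ F x v

noncomputable def RR (F : E → 𝔸) (v w : E) (x : E) : 𝔸 :=
  Ring.inverse (F x) * fderiv ℝ (fderiv ℝ F) x v w

theorem RR_symm {F : E → 𝔸} (hF : ContDiff ℝ ∞ F) (v w x : E) : RR F v w x = RR F w v x := by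
  unfold RR
  have h := (hF.contDiffAt (x := x)).isSymmSndFDerivAt (by
    simp only [minSmoothness_of_isRCLikeNormedField]
    exact WithTop.coe_le_coe.2 (le_top : (2 : ℕ∞) ≤ ⊤))
  rw [h v w]

theorem fderiv_mul_apply {a b : E → 𝔸} {x : E} (ha : DifferentiableAt ℝ a x)
    (hb : DifferentiableAt ℝ b x) (v : E) :
    fderiv ℝ (fun y => a y * b y) x v = fderiv ℝ a x v * b x + a x * fderiv ℝ b x v := by
  have h : fderiv ℝ (fun y => a y * b y) x = _ := (ha.hasFDerivAt.mul' hb.hasFDerivAt).fderiv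
  rw [h]
  simp [add_comm]

theorem contDiff_inv {F : E → 𝔸} (hF : ContDiff ℝ ∞ F) (hU : ∀ x, IsUnit (F x)) :
    ContDiff ℝ ∞ (fun x => Ring.inverse (F x)) := by
  rw [contDiff_iff_contDiffAt]
  intro x
  obtain ⟨u, hu⟩ := hU x
  have h1 : ContDiffAt ℝ ∞ Ring.inverse (F x) := by
    rw [← hu]; exact contDiffAt_ringInverse ℝ u
  exact h1.comp x hF.contDiffAt

theorem contDiff_fd {F : E → 𝔸} (hF : ContDiff ℝ ∞ F) : ContDiff ℝ ∞ (fderiv ℝ F) :=
  hF.fderiv_right (m := ∞) (by simp)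

theorem contDiff_th {F : E → 𝔸} (hF : ContDiff ℝ ∞ F) (hU : ∀ x, IsUnit (F x)) (v : E) :
    ContDiff ℝ ∞ (th F v) := by
  unfold th
  exact (contDiff_inv hF hU).mul ((contDiff_fd hF).clm_apply contDiff_const)

theorem fderiv_inv {F : E → 𝔸} (hF : ContDiff ℝ ∞ F) (hU : ∀ x, IsUnit (F x)) (x v : E) :
    fderiv ℝ (fun y => Ring.inverse (F y)) x v
      = - (Ring.inverse (F x) * fderiv ℝ F x v * Ring.inverse (F x)) := by
  obtain ⟨u, hu⟩ := hU x
  have h1 : HasFDerivAt Ring.inverse (-ContinuousLinearMap.mulLeftRight ℝ 𝔸 ↑u⁻¹ ↑u⁻¹) (F x) := by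
    rw [← hu]; exact hasFDerivAt_ringInverse u
  have h2 := h1.comp x (hF.differentiable (by simp) x).hasFDerivAt
  have h3 := h2.fderiv
  have h4 : (fun y => Ring.inverse (F y)) = Ring.inverse ∘ F := rfl
  rw [h4, h3]
  have h5 : Ring.inverse (F x) = ↑u⁻¹ := by rw [← hu]; exact Ring.inverse_unit u
  rw [h5]
  simp [ContinuousLinearMap.mulLeftRight_apply]

theorem fderiv_th {F : E → 𝔸} (hF : ContDiff ℝ ∞ F) (hU : ∀ x, IsUnit (F x)) (x v w : E) :
    fderiv ℝ (th F w) x v = RR F v w x - th F v x * th F w x := by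
  have hi := (contDiff_inv hF hU).differentiable (by simp) x
  have hf := ((contDiff_fd hF).differentiable (by simp) x)
  have h1 : fderiv ℝ (fun y => fderiv ℝ F y w) x v = fderiv ℝ (fderiv ℝ F) x v w := by
    have := hf.hasFDerivAt.clm_apply (hasFDerivAt_const w x)
    rw [this.fderiv]
    simp
  unfold th
  rw [fderiv_mul_apply hi (hf.clm_apply (differentiableAt_const w)), fderiv_inv hF hU, h1]
  unfold RR
  noncomm_ring

/-- Three-fold trace form. -/
noncomputable def TT (τ : 𝔸 →L[ℝ] ℝ) (F : E → 𝔸) (u v w : E) (x : E) : ℝ :=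
  τ (th F u x * th F v x * th F w x) - τ (th F u x * th F w x * th F v x)

theorem contDiff_TT (τ : 𝔸 →L[ℝ] ℝ) {F : E → 𝔸} (hF : ContDiff ℝ ∞ F) (hU : ∀ x, IsUnit (F x))
    (u v w : E) : ContDiff ℝ ∞ (TT τ F u v w) := by
  unfold TT
  have h := contDiff_th hF hU
  exact (τ.contDiff.comp (((h u).mul (h v)).mul (h w))).sub
    (τ.contDiff.comp (((h u).mul (h w)).mul (h v)))

theorem fderiv_tau3 (τ : 𝔸 →L[ℝ] ℝ) {a b c : E → 𝔸} (ha : Differentiable ℝ a)
    (hb : Differentiable ℝ b) (hc : Differentiable ℝ c) (x v : E) :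
    fderiv ℝ (fun y => τ (a y * b y * c y)) x v
      = τ (fderiv ℝ a x v * b x * c x) + τ (a x * fderiv ℝ b x v * c x)
        + τ (a x * b x * fderiv ℝ c x v) := by
  have h1 : DifferentiableAt ℝ (fun y => a y * b y * c y) x := ((ha.mul hb).mul hc) x
  have h2 := (τ.hasFDerivAt.comp x h1.hasFDerivAt).fderiv
  have h3 : (fun y => τ (a y * b y * c y)) = τ ∘ (fun y => a y * b y * c y) := rfl
  rw [h3, h2]
  simp only [ContinuousLinearMap.coe_comp, Function.comp]
  have h4 : DifferentiableAt ℝ (fun y => a y * b y) x := (ha.mul hb) x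
  rw [fderiv_mul_apply h4 (hc x), fderiv_mul_apply (ha x) (hb x)]
  rw [← map_add, ← map_add]
  congr 1
  noncomm_ring

theorem fderiv_TT (τ : 𝔸 →L[ℝ] ℝ) {F : E → 𝔸} (hF : ContDiff ℝ ∞ F) (hU : ∀ x, IsUnit (F x))
    (u v w x z : E) :
    fderiv ℝ (TT τ F u v w) x z
      = (τ (fderiv ℝ (th F u) x z * th F v x * th F w x)
          + τ (th F u x * fderiv ℝ (th F v) x z * th F w x)
          + τ (th F u x * th F v x * fderiv ℝ (th F w) x z))
        - (τ (fderiv ℝ (th F u) x z * th F w x * th F v x)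
          + τ (th F u x * fderiv ℝ (th F w) x z * th F v x)
          + τ (th F u x * th F w x * fderiv ℝ (th F v) x z)) := by
  have h := fun v => (contDiff_th hF hU v).differentiable (by simp)
  rw [← fderiv_tau3 τ (h u) (h v) (h w), ← fderiv_tau3 τ (h u) (h w) (h v)]
  have h1 : DifferentiableAt ℝ (fun y => τ (th F u y * th F v y * th F w y)) x :=
    τ.differentiableAt.comp x ((((h u).mul (h v)).mul (h w)) x)
  have h2 : DifferentiableAt ℝ (fun y => τ (th F u y * th F w y * th F v y)) x :=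
    τ.differentiableAt.comp x ((((h u).mul (h w)).mul (h v)) x)
  have h3 := (h1.hasFDerivAt.sub h2.hasFDerivAt).fderiv
  have h4 : TT τ F u v w = (fun y => τ (th F u y * th F v y * th F w y))
      - (fun y => τ (th F u y * th F w y * th F v y)) := by
    funext y; rfl
  rw [h4, h3]; simp

end Q261.ML
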